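import Mathlib

/-! MP_f10e5d_pr (S19735): definitions and exact statements of the parts. -/

set_option autoImplicit false

namespace Pool.Agent.W593.FG

/-- expectation of `φ Z`, where `Z` is the sum over `A` of independent variables that are `b j` with
probability `1 / b j` and `0` otherwise -/
noncomputable def Ex {ι : Type} [DecidableEq ι] (b : ι → ℝ) (A : Finset ι) (φ : ℝ → ℝ) : ℝ :=
  ∑ S ∈ A.powerset, (∏ j ∈ S, 1 / b j) * (∏ j ∈ A \ S, (1 - 1 / b j)) * φ (∑ j ∈ S, b j)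

/-- `P(Z < t)` -/
noncomputable def U {ι : Type} [DecidableEq ι] (b : ι → ℝ) (A : Finset ι) (t : ℝ) : ℝ :=
  Ex b A (fun z => if z < t then 1 else 0)

/-- `E (t - Z)^+` -/
noncomputable def GG {ι : Type} [DecidableEq ι] (b : ι → ℝ) (A : Finset ι) (t : ℝ) : ℝ :=
  Ex b A (fun z => max (t - z) 0)

/-- one item is good -/
def S_C2 : Prop := ∀ (ι : Type) [DecidableEq ι] (b : ι → ℝ) (A : Finset ι) (t : ℝ),
  (∀ j, 1 < b j) → A.Nonempty →
  ∃ i ∈ A, (U b (A.erase i) t - U b A t) * GG b (A.erase i) t ≤ (U b (A.erase i) t) ^ 2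

/-- simple facts -/
def S_FACTS : Prop := ∀ (ι : Type) [DecidableEq ι] (b : ι → ℝ) (A : Finset ι) (t : ℝ),
  (∀ j, 1 < b j) → 0 < t →
  0 < U b A t ∧ U b A t ≤ 1 ∧ t - A.card ≤ GG b A t ∧
    ∀ i ∈ A, U b A t ≤ U b (A.erase i) t ∧ GG b (A.erase i) t - U b (A.erase i) t ≤ GG b A t

/-- one step of the recursion, `N = n - |A|` items still to come -/
def S_STEP : Prop := ∀ (N : ℕ) (u G u' G' : ℝ), 1 ≤ N → 0 < u → u ≤ 1 → (N : ℝ) + 1 ≤ G →
  0 < u' → u' ≤ u → (u - u') * G ≤ u ^ 2 → G - u ≤ G' → (N : ℝ) ≤ G' →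
  u * Real.exp (-((N : ℝ) * (u / (G - u)))) ≤ u' * Real.exp (-(((N : ℝ) - 1) * (u' / (G' - u'))))

end Pool.Agent.W593.FG
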